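import Pool.Agent.W785.DF.Stubs
import Pool.Agent.H459R3.NS.Phys2

/-! # DF-TAIL: uniform convergence of Fourier series of smooth periodic functions -/

open MeasureTheory Set Filter Topology
open scoped ContDiff

namespace Pool.Agent.W801.DF

open Pool.Agent.W785.DF
open H459R3.NS

/-- partial sums of the Fourier series -/
noncomputable def Ps (S : Finset K3) (h : V → ℝ) (x : V) : ℝ := (∑ k ∈ S, fr h k * ee k x).re

theorem Ps_contDiff (S : Finset K3) (h : V → ℝ) : ContDiff ℝ ∞ (Ps S h) := by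
  have h1 : ContDiff ℝ ∞ (fun x => ∑ k ∈ S, fr h k * ee k x) :=
    ContDiff.sum fun k _ => contDiff_const.mul (ee_contDiff k)
  exact Complex.reCLM.contDiff.comp h1

theorem Ps_per (S : Finset K3) (h : V → ℝ) : Per (Ps S h) := by
  intro i x
  unfold Ps
  congr 1
  refine Finset.sum_congr rfl fun k _ => ?_
  rw [ee_per k i x]

theorem Ps_sp (S : Finset K3) (h : V → ℝ) : SP (Ps S h) := ⟨Ps_contDiff S h, Ps_per S h⟩

theorem pd_Ps (S : Finset K3) {h : V → ℝ} (hh : SP h) (j : Fin 3) :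
    pd j (Ps S h) = Ps S (pd j h) := by
  funext x
  unfold pd
  have hd : ∀ k ∈ S, HasFDerivAt (fun y => fr h k * ee k y) ((fr h k) • fderiv ℝ (ee k) x) x := by
    intro k _
    have h1 : HasFDerivAt (ee k) (fderiv ℝ (ee k) x) x :=
      (((ee_contDiff k (n := 1)).differentiable one_ne_zero) x).hasFDerivAt
    exact h1.const_mul (fr h k)
  have hs : HasFDerivAt (fun y => ∑ k ∈ S, fr h k * ee k y)
      (∑ k ∈ S, (fr h k) • fderiv ℝ (ee k) x) x := HasFDerivAt.fun_sum hd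
  have h2 : HasFDerivAt (Ps S h)
      (Complex.reCLM.comp (∑ k ∈ S, (fr h k) • fderiv ℝ (ee k) x)) x :=
    Complex.reCLM.hasFDerivAt.comp x hs
  rw [h2.fderiv]
  unfold Ps
  rw [ContinuousLinearMap.comp_apply, _root_.sum_apply, Complex.reCLM_apply]
  congr 1
  refine Finset.sum_congr rfl fun k _ => ?_
  have h3 := pd_ee k j x
  unfold pd at h3
  rw [_root_.smul_apply, h3, smul_eq_mul]
  have h4 := congrFun (fr_pd hh j) k
  unfold D at h4
  rw [show (fun x => fderiv ℝ h x (Pi.single j 1)) = pd j h from rfl, h4]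
  ring

theorem tail {g : V → ℝ} (hg : SP g) {ε : ℝ} (hε : 0 < ε) : ∃ S0 : Finset K3,
    ∀ S : Finset K3, S0 ⊆ S → ∀ x, |g x - Ps S g x| ≤ ε := by
  have hs : Summable fun k => ‖fr g k‖ := (rap_fr hg).summable.norm
  have ht : Tendsto (fun S : Finset K3 => ∑ k ∈ S, ‖fr g k‖) atTop (𝓝 (∑' k, ‖fr g k‖)) :=
    hs.hasSum
  have hev : ∀ᶠ S : Finset K3 in atTop, (∑' k, ‖fr g k‖) - ε < ∑ k ∈ S, ‖fr g k‖ :=
    ht.eventually_const_lt (by linarith)
  obtain ⟨S0, hS0⟩ := eventually_atTop.1 hev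
  refine ⟨S0, fun S hS x => ?_⟩
  have h1 := hS0 S hS
  have h2 : HasSum (fun k => fr g k * ee k x) ((g x : ℝ) : ℂ) :=
    hasSum_fc (per_ofReal hg.per) (contDiff_ofReal hg.smooth).continuous (rap_fr hg).summable x
  have h3 : Tendsto (fun T : Finset K3 => ‖∑ k ∈ T, fr g k * ee k x - ∑ k ∈ S, fr g k * ee k x‖)
      atTop (𝓝 ‖((g x : ℝ) : ℂ) - ∑ k ∈ S, fr g k * ee k x‖) :=
    ((h2 : Tendsto _ _ _).sub_const _).norm
  have h4 : ‖((g x : ℝ) : ℂ) - ∑ k ∈ S, fr g k * ee k x‖ ≤ ε := by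
    refine le_of_tendsto h3 ?_
    filter_upwards [eventually_ge_atTop S] with T hT
    have h5 : ∑ k ∈ T, fr g k * ee k x - ∑ k ∈ S, fr g k * ee k x =
        ∑ k ∈ T \ S, fr g k * ee k x := by
      rw [← Finset.sum_sdiff hT]; ring
    rw [h5]
    have h6 : ‖∑ k ∈ T \ S, fr g k * ee k x‖ ≤ ∑ k ∈ T \ S, ‖fr g k‖ := by
      refine (norm_sum_le _ _).trans (le_of_eq ?_)
      refine Finset.sum_congr rfl fun k _ => ?_
      rw [norm_mul, norm_ee, mul_one]
    have h7 : ∑ k ∈ T \ S, ‖fr g k‖ + ∑ k ∈ S, ‖fr g k‖ = ∑ k ∈ T, ‖fr g k‖ :=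
      Finset.sum_sdiff hT
    have h8 : ∑ k ∈ T, ‖fr g k‖ ≤ ∑' k, ‖fr g k‖ :=
      hs.sum_le_tsum T fun _ _ => norm_nonneg _
    linarith
  have h9 : g x - Ps S g x = (((g x : ℝ) : ℂ) - ∑ k ∈ S, fr g k * ee k x).re := by
    unfold Ps
    rw [Complex.sub_re, Complex.ofReal_re]
  rw [h9]
  exact (Complex.abs_re_le_norm _).trans h4

theorem main : S_tail := by
  intro h hsm hper ε hε
  have hh : SP h := ⟨hsm, hper⟩
  obtain ⟨A, hA⟩ := tail hh hε
  choose B hB using fun j => tail (hh.pd j) hε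
  choose C hC using fun j => tail ((hh.pd j).pd j) (ε := ε / 3) (by positivity)
  classical
  refine ⟨A ∪ (Finset.univ.biUnion B ∪ Finset.univ.biUnion C), fun S hS r hr => ?_⟩
  have hSA : A ⊆ S := Finset.subset_union_left.trans hS
  have hSB : ∀ j, B j ⊆ S := fun j =>
    ((Finset.subset_biUnion_of_mem B (Finset.mem_univ j)).trans
      (Finset.subset_union_left.trans Finset.subset_union_right)).trans hS
  have hSC : ∀ j, C j ⊆ S := fun j =>
    ((Finset.subset_biUnion_of_mem C (Finset.mem_univ j)).trans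
      (Finset.subset_union_right.trans Finset.subset_union_right)).trans hS
  have hr' : r = fun x => h x - Ps S h x := funext hr
  have hsub : ∀ {f : V → ℝ}, SP f → ∀ (j : Fin 3),
      pd j (fun x => f x - Ps S f x) = fun x => pd j f x - Ps S (pd j f) x := by
    intro f hf j
    funext x
    rw [← pd_Ps S hf j]
    unfold pd
    have h1 : HasFDerivAt (fun y => f y - Ps S f y) _ x :=
      ((hf.smooth.differentiable (by norm_cast)) x).hasFDerivAt.sub
        (((Ps_contDiff S f).differentiable (by norm_cast)) x).hasFDerivAt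
    rw [h1.fderiv]
    rfl
  have h1 : ∀ j, pd j r = fun x => pd j h x - Ps S (pd j h) x := fun j => by
    rw [hr']; exact hsub hh j
  have h2 : ∀ j, pd j (pd j r) = fun x => pd j (pd j h) x - Ps S (pd j (pd j h)) x := fun j => by
    rw [h1 j]; exact hsub (hh.pd j) j
  refine ⟨?_, ?_, fun x => ⟨?_, fun j => ?_, ?_⟩⟩
  · rw [hr']; exact hsm.sub (Ps_contDiff S h)
  · rw [hr']
    intro i x
    simp only [hper i x, Ps_per S h i x]
  · rw [hr']; exact hA S hSA x
  · rw [h1 j]; exact hB j S (hSB j) x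
  · refine (Finset.abs_sum_le_sum_abs _ _).trans ?_
    have h3 : ∀ j ∈ (Finset.univ : Finset (Fin 3)), |pd j (pd j r) x| ≤ ε / 3 := fun j _ => by
      rw [h2 j]; exact hC j S (hSC j) x
    refine (Finset.sum_le_sum h3).trans (le_of_eq ?_)
    rw [Finset.sum_const, Finset.card_univ, Fintype.card_fin, nsmul_eq_mul]
    push_cast
    ring

end Pool.Agent.W801.DF
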